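import Mathlib

/-!
# Two rational structures on a vector space which are diagonal with respect to each other
-/

set_option autoImplicit false

namespace Pool.Agent.R370.HA

section Definitions

variable (k : Type) {K : Type} [Field k] [Field K] [Algebra k K] {ι : Type} [Fintype ι]

/-- `W` is rational for the first (geometric) structure `k^ι` on `K^ι`: it is spanned by vectors
with coordinates in `k`. -/
def GeomRational (W : Submodule K (ι → K)) : Prop :=
  ∃ s : Set (ι → k), W = Submodule.span K ((fun w i => algebraMap k K (w i)) '' s)

/-- `W` is rational for the second (arithmetic) structure, the set of the vectors `(w i / μ i)` with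
`w i` in `k`: it is spanned by such vectors. -/
def ArithRational (μ : ι → K) (W : Submodule K (ι → K)) : Prop :=
  ∃ s : Set (ι → k), W = Submodule.span K ((fun w i => (μ i)⁻¹ * algebraMap k K (w i)) '' s)

/-- The statement Q1 for the point `z`: every subspace `V` containing `z` which is rational for the
arithmetic structure contains a subspace `V'` containing `z` which is rational for both. -/
def SubspaceProperty (μ : ι → K) (z : ι → K) : Prop :=
  ∀ V : Submodule K (ι → K), ArithRational k μ V → z ∈ V →
    ∃ V' : Submodule K (ι → K), V' ≤ V ∧ GeomRational k V' ∧ ArithRational k μ V' ∧ z ∈ V'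

/-- `y` is a multiple of `x` by an element of `k`. -/
def Proportional (x y : K) : Prop := ∃ t : k, y = algebraMap k K t * x

/-- Every linear relation over `k` between the `μ j`, `w j ≠ 0`, is a sum of relations between
proportional `μ j`: for every `i` its part with the `μ j` proportional to `μ i` is a relation. -/
def RelationsSplit (μ : ι → K) (w : ι → k) : Prop :=
  ∀ b : ι → k, (∀ j, w j = 0 → b j = 0) → ∑ j, algebraMap k K (b j) * μ j = 0 →
    ∀ i, ∀ b' : ι → k, (∀ j, (Proportional k (μ i) (μ j) → b' j = b j) ∧
      (¬ Proportional k (μ i) (μ j) → b' j = 0)) → ∑ j, algebraMap k K (b' j) * μ j = 0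

end Definitions

variable {k K : Type} [Field k] [Field K] [Algebra k K] {ι : Type} [Fintype ι]

/-- a vector killed by the functionals over `k` which kill a set of vectors over `k` -/
theorem mem_span_of_dual (s : Set (ι → k)) (v : ι → K)
    (h : ∀ a : ι → k, (∀ w ∈ s, ∑ i, a i * w i = 0) → ∑ i, algebraMap k K (a i) * v i = 0) :
    v ∈ Submodule.span K ((fun (w : ι → k) i => algebraMap k K (w i)) '' s) := by
  classical
  set B := Module.Basis.ofVectorSpace k K with hB
  set E : Finset (Module.Basis.ofVectorSpaceIndex k K) :=
    Finset.univ.biUnion fun i => (B.repr (v i)).support with hE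
  have h1 : v = ∑ e ∈ E, (B e) • fun i => algebraMap k K (B.repr (v i) e) := by
    funext i
    rw [Finset.sum_apply]
    simp only [Pi.smul_apply, smul_eq_mul]
    conv_lhs => rw [← B.linearCombination_repr (v i)]
    rw [Finsupp.linearCombination_apply, Finsupp.sum]
    rw [Finset.sum_subset (s₂ := E)]
    · exact Finset.sum_congr rfl fun e _ => by rw [Algebra.smul_def, mul_comm]
    · intro e he
      exact Finset.mem_biUnion.2 ⟨i, Finset.mem_univ _, he⟩
    · intro e _ he
      rw [Finsupp.notMem_support_iff] at he
      rw [he, zero_smul]
  rw [h1]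
  refine Submodule.sum_mem _ fun e _ => Submodule.smul_mem _ _ ?_
  have h2 : (fun i => B.repr (v i) e) ∈ Submodule.span k s := by
    by_contra hcon
    obtain ⟨f, hf, hfs⟩ := Submodule.exists_dual_map_eq_bot_of_notMem hcon inferInstance
    have hf2 : ∀ w : ι → k, f w = ∑ i, f (Pi.single i 1) * w i := by
      intro w
      rw [LinearMap.pi_apply_eq_sum_univ f w]
      refine Finset.sum_congr rfl fun i _ => ?_
      have h0 : (fun j => if i = j then (1 : k) else 0) = Pi.single i 1 := by
        funext j
        simp [Pi.single_apply, eq_comm]
      rw [smul_eq_mul, mul_comm, h0]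
    apply hf
    have h3 := h (fun i => f (Pi.single i 1)) fun w hw => by
      rw [← hf2]
      have h4 : f w ∈ (Submodule.span k s).map f := ⟨w, Submodule.subset_span hw, rfl⟩
      rw [hfs] at h4
      exact (Submodule.mem_bot k).1 h4
    rw [hf2]
    have h5 := congrArg (fun x => B.repr x e) h3
    simp only [map_sum, map_zero, Finsupp.coe_zero, Pi.zero_apply, Finsupp.coe_finsetSum,
      Finset.sum_apply] at h5
    rw [← h5]
    refine Finset.sum_congr rfl fun i _ => ?_
    rw [← Algebra.smul_def, map_smul, Finsupp.smul_apply, smul_eq_mul]
  have h3 : ∀ w ∈ Submodule.span k s, (fun i => algebraMap k K (w i)) ∈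
      Submodule.span K ((fun (w : ι → k) i => algebraMap k K (w i)) '' s) := by
    intro w hw
    induction hw using Submodule.span_induction with
    | mem w hw => exact Submodule.subset_span ⟨w, hw, rfl⟩
    | zero =>
      have : (fun i => algebraMap k K ((0 : ι → k) i)) = 0 := by
        funext i
        simp
      rw [this]
      exact Submodule.zero_mem _
    | add x y _ _ hx hy =>
      have : (fun i => algebraMap k K ((x + y) i)) =
          (fun i => algebraMap k K (x i)) + fun i => algebraMap k K (y i) := by
        funext i
        simp
      rw [this]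
      exact Submodule.add_mem _ hx hy
    | smul c x _ hx =>
      have : (fun i => algebraMap k K ((c • x) i)) =
          algebraMap k K c • fun i => algebraMap k K (x i) := by
        funext i
        simp
      rw [this]
      exact Submodule.smul_mem _ _ hx
  exact h3 _ h2

/-- the functionals over `k` which kill `V` kill `z` -/
theorem relation_of_mem {s : Set (ι → k)} {v : ι → K}
    (hv : v ∈ Submodule.span K ((fun (w : ι → k) i => algebraMap k K (w i)) '' s))
    {a : ι → k} (ha : ∀ w ∈ s, ∑ i, a i * w i = 0) : ∑ i, algebraMap k K (a i) * v i = 0 := by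
  induction hv using Submodule.span_induction with
  | mem x hx =>
    obtain ⟨w, hw, rfl⟩ := hx
    have h1 := congrArg (algebraMap k K) (ha w hw)
    rw [map_sum, map_zero] at h1
    rw [← h1]
    exact Finset.sum_congr rfl fun i _ => (map_mul _ _ _).symm
  | zero => simp
  | add x y _ _ hx hy =>
    have : ∑ i, algebraMap k K (a i) * (x + y) i =
        ∑ i, algebraMap k K (a i) * x i + ∑ i, algebraMap k K (a i) * y i := by
      rw [← Finset.sum_add_distrib]
      exact Finset.sum_congr rfl fun i _ => by rw [Pi.add_apply, mul_add]
    rw [this, hx, hy, add_zero]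
  | smul c x _ hx =>
    have : ∑ i, algebraMap k K (a i) * (c • x) i = c * ∑ i, algebraMap k K (a i) * x i := by
      rw [Finset.mul_sum]
      exact Finset.sum_congr rfl fun i _ => by rw [Pi.smul_apply, smul_eq_mul]; ring
    rw [this, hx, mul_zero]

omit [Fintype ι] in
/-- multiplication of the coordinates by nonzero numbers -/
theorem mem_arith_iff {μ : ι → K} (hμ : ∀ i, μ i ≠ 0) (s : Set (ι → k)) (v : ι → K) :
    v ∈ Submodule.span K ((fun (w : ι → k) i => (μ i)⁻¹ * algebraMap k K (w i)) '' s) ↔
      (fun i => μ i * v i) ∈ Submodule.span K ((fun (w : ι → k) i => algebraMap k K (w i)) '' s) := by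
  have key : ∀ (ν : ι → K) (A : Set (ι → K)) (x : ι → K), x ∈ Submodule.span K A →
      (fun i => ν i * x i) ∈ Submodule.span K ((fun y i => ν i * y i) '' A) := by
    intro ν A x hx
    induction hx using Submodule.span_induction with
    | mem x hx => exact Submodule.subset_span ⟨x, hx, rfl⟩
    | zero =>
      have : (fun i => ν i * (0 : ι → K) i) = 0 := by
        funext i
        simp
      rw [this]
      exact Submodule.zero_mem _
    | add x y _ _ hx hy =>
      have : (fun i => ν i * (x + y) i) = (fun i => ν i * x i) + fun i => ν i * y i := by
        funext i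
        simp [mul_add]
      rw [this]
      exact Submodule.add_mem _ hx hy
    | smul c x _ hx =>
      have : (fun i => ν i * (c • x) i) = c • fun i => ν i * x i := by
        funext i
        simp only [Pi.smul_apply, smul_eq_mul]
        ring
      rw [this]
      exact Submodule.smul_mem _ _ hx
  constructor
  · intro h
    have h1 := key μ _ v h
    rw [Set.image_image] at h1
    have h2 : (fun (w : ι → k) i => μ i * ((μ i)⁻¹ * algebraMap k K (w i))) =
        fun (w : ι → k) i => algebraMap k K (w i) := by
      funext w i
      rw [mul_inv_cancel_left₀ (hμ i)]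
    rwa [h2] at h1
  · intro h
    have h1 := key (fun i => (μ i)⁻¹) _ _ h
    rw [Set.image_image] at h1
    have h2 : (fun i => (μ i)⁻¹ * (μ i * v i)) = v := by
      funext i
      rw [inv_mul_cancel_left₀ (hμ i)]
    rwa [h2] at h1

end Pool.Agent.R370.HA
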