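import Pool.Agent.R370.HA.A

/-!
# Points with coordinates in `k`
-/

set_option autoImplicit false

namespace Pool.Agent.R370.HA

variable {k K : Type} [Field k] [Field K] [Algebra k K] {ι : Type} [Fintype ι]

theorem prop_refl (x : K) : Proportional k x x := ⟨1, by rw [map_one, one_mul]⟩

theorem prop_symm {x y : K} (hy : y ≠ 0) (h : Proportional k x y) : Proportional k y x := by
  obtain ⟨t, rfl⟩ := h
  have ht : t ≠ 0 := by
    rintro rfl
    exact hy (by rw [map_zero, zero_mul])
  refine ⟨t⁻¹, ?_⟩
  rw [← mul_assoc, ← map_mul, inv_mul_cancel₀ ht, map_one, one_mul]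

theorem prop_trans {x y z : K} (h1 : Proportional k x y) (h2 : Proportional k y z) :
    Proportional k x z := by
  obtain ⟨t, rfl⟩ := h1
  obtain ⟨u, rfl⟩ := h2
  exact ⟨u * t, by rw [map_mul, mul_assoc]⟩

/-- **Points over `k`.** -/
theorem special_split {μ : ι → K} (hμ : ∀ i, μ i ≠ 0) {w : ι → k} (h : RelationsSplit k μ w) :
    SubspaceProperty k μ (fun i => algebraMap k K (w i)) := by
  classical
  rintro V ⟨s, rfl⟩ hz
  let u : ι → ι → k := fun i j => if Proportional k (μ i) (μ j) then w j else 0
  refine ⟨Submodule.span K ((fun w i => algebraMap k K (w i)) '' Set.range u), ?_,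
    ⟨Set.range u, rfl⟩, ?_, ?_⟩
  · rw [Submodule.span_le]
    rintro _ ⟨_, ⟨i, rfl⟩, rfl⟩
    refine (mem_arith_iff hμ s _).2 (mem_span_of_dual s _ fun a ha => ?_)
    have h1 := relation_of_mem ((mem_arith_iff hμ s _).1 hz) ha
    have h2 := h (fun j => a j * w j) (fun j hj => by
      change a j * w j = 0
      rw [hj, mul_zero]) (by
      rw [← h1]
      refine Finset.sum_congr rfl fun j _ => ?_
      rw [map_mul]
      ring) i (fun j => a j * u i j) fun j => ⟨fun hj => by simp only [u, if_pos hj],
        fun hj => by simp only [u, if_neg hj, mul_zero]⟩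
    rw [← h2]
    refine Finset.sum_congr rfl fun j _ => ?_
    rw [map_mul]
    ring
  · have ht : ∀ i j, ∃ t : k, Proportional k (μ i) (μ j) → μ j = algebraMap k K t * μ i := by
      intro i j
      by_cases hij : Proportional k (μ i) (μ j)
      · obtain ⟨t, ht⟩ := hij
        exact ⟨t, fun _ => ht⟩
      · exact ⟨0, fun h => absurd h hij⟩
    choose t ht using ht
    have key : ∀ i, (fun j => (μ j)⁻¹ * algebraMap k K (t i j * u i j)) =
        (μ i)⁻¹ • fun j => algebraMap k K (u i j) := by
      intro i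
      funext j
      rw [Pi.smul_apply, smul_eq_mul, map_mul]
      by_cases hij : Proportional k (μ i) (μ j)
      · have h1 := ht i j hij
        have h2 : algebraMap k K (t i j) = μ j * (μ i)⁻¹ := by
          rw [h1, mul_assoc, mul_inv_cancel₀ (hμ i), mul_one]
        rw [h2, ← mul_assoc, ← mul_assoc, inv_mul_cancel₀ (hμ j), one_mul]
      · simp only [u, if_neg hij, map_zero, mul_zero]
    refine ⟨Set.range fun i j => t i j * u i j, le_antisymm ?_ ?_⟩
    · rw [Submodule.span_le]
      rintro _ ⟨_, ⟨i, rfl⟩, rfl⟩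
      have h1 : (fun j => algebraMap k K (u i j)) =
          μ i • fun j => (μ j)⁻¹ * algebraMap k K (t i j * u i j) := by
        rw [key, smul_smul, mul_inv_cancel₀ (hμ i), one_smul]
      simp only [SetLike.mem_coe]
      rw [h1]
      exact Submodule.smul_mem _ _ (Submodule.subset_span ⟨_, ⟨i, rfl⟩, rfl⟩)
    · rw [Submodule.span_le]
      rintro _ ⟨_, ⟨i, rfl⟩, rfl⟩
      simp only [SetLike.mem_coe]
      rw [key]
      exact Submodule.smul_mem _ _ (Submodule.subset_span ⟨_, ⟨i, rfl⟩, rfl⟩)
  · refine mem_span_of_dual _ _ fun a ha => ?_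
    let S : Setoid ι := ⟨fun i j => Proportional k (μ i) (μ j), fun i => prop_refl _,
      fun {i j} h => prop_symm (hμ j) h, fun h1 h2 => prop_trans h1 h2⟩
    let r : ι → ι := fun j => (Quotient.mk S j).out
    have hr : ∀ j, Proportional k (μ (r j)) (μ j) := fun j => Quotient.mk_out (s := S) j
    have hr2 : ∀ i j, Proportional k (μ i) (μ j) → r i = r j := by
      intro i j hij
      have h1 : Quotient.mk S i = Quotient.mk S j := Quotient.sound hij
      change (Quotient.mk S i).out = (Quotient.mk S j).out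
      rw [h1]
    have h1 : ∑ j, a j * w j = 0 := by
      rw [← Finset.sum_fiberwise Finset.univ r fun j => a j * w j]
      refine Finset.sum_eq_zero fun c _ => ?_
      by_cases hc : ∃ j₀, r j₀ = c
      · obtain ⟨j₀, rfl⟩ := hc
        have h2 := ha (u (r j₀)) ⟨_, rfl⟩
        rw [← h2, Finset.sum_filter]
        refine Finset.sum_congr rfl fun j _ => ?_
        have h3 : r j = r j₀ ↔ Proportional k (μ (r j₀)) (μ j) := by
          constructor
          · intro h3
            rw [← h3]
            exact hr j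
          · intro h3
            exact (hr2 _ _ (prop_trans (prop_symm (hμ j₀) (hr j₀)) h3)).symm
        by_cases h4 : Proportional k (μ (r j₀)) (μ j)
        · rw [if_pos (h3.2 h4)]
          simp only [u, if_pos h4]
        · rw [if_neg (fun h5 => h4 (h3.1 h5))]
          simp only [u, if_neg h4, mul_zero]
      · refine Finset.sum_eq_zero fun j hj => ?_
        exact absurd ⟨j, (Finset.mem_filter.1 hj).2⟩ hc
    have h2 := congrArg (algebraMap k K) h1
    rw [map_sum, map_zero] at h2
    rw [← h2]
    exact Finset.sum_congr rfl fun j _ => (map_mul _ _ _).symm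

/-- a combination of numbers proportional to `x` -/
theorem sum_class {μ : ι → K} (b : ι → k) (x : K) (h : ∀ j, b j ≠ 0 → Proportional k x (μ j)) :
    ∃ T : k, ∑ j, algebraMap k K (b j) * μ j = algebraMap k K T * x := by
  classical
  have ht : ∀ j, ∃ t : k, algebraMap k K (b j) * μ j = algebraMap k K (b j * t) * x := by
    intro j
    by_cases hj : b j = 0
    · exact ⟨0, by rw [hj, map_zero, zero_mul, zero_mul, map_zero, zero_mul]⟩
    · obtain ⟨t, ht⟩ := h j hj
      exact ⟨t, by rw [ht, map_mul, mul_assoc]⟩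
  choose t ht using ht
  refine ⟨∑ j, b j * t j, ?_⟩
  rw [map_sum, Finset.sum_mul]
  exact Finset.sum_congr rfl fun j _ => ht j

/-- **At most two classes.** -/
theorem split_of_two {μ : ι → K} (hμ : ∀ i, μ i ≠ 0) {w : ι → k} {i₁ i₂ : ι}
    (h : ∀ j, w j ≠ 0 → Proportional k (μ i₁) (μ j) ∨ Proportional k (μ i₂) (μ j)) :
    RelationsSplit k μ w := by
  classical
  intro b hb hsum i b' hb'
  have hbj : ∀ j, b j ≠ 0 → Proportional k (μ i₁) (μ j) ∨ Proportional k (μ i₂) (μ j) :=
    fun j hj => h j fun hw => hj (hb j hw)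
  by_cases hall : ∀ j, b j ≠ 0 → Proportional k (μ i) (μ j)
  · rw [← hsum]
    refine Finset.sum_congr rfl fun j _ => ?_
    by_cases hj : b j = 0
    · by_cases hij : Proportional k (μ i) (μ j)
      · rw [(hb' j).1 hij]
      · rw [(hb' j).2 hij, hj]
    · rw [(hb' j).1 (hall j hj)]
  · push Not at hall
    obtain ⟨j₀, hj₀, hij₀⟩ := hall
    obtain ⟨T, hT⟩ := sum_class (k := k) (μ := μ) b' (μ i) fun j hj => by
      by_contra hcon
      exact hj ((hb' j).2 hcon)
    -- the rest of the relation is in the class of `j₀`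
    have hrest : ∀ j, b j - b' j ≠ 0 → ¬ (∀ j, b' j = 0) → Proportional k (μ j₀) (μ j) := by
      intro j hj hne
      push Not at hne
      obtain ⟨j₁, hj₁⟩ := hne
      have h1 : Proportional k (μ i) (μ j₁) := by
        by_contra hcon
        exact hj₁ ((hb' j₁).2 hcon)
      have h2 : b j₁ ≠ 0 := by rw [← (hb' j₁).1 h1]; exact hj₁
      have h3 : ¬ Proportional k (μ i) (μ j) := fun h3 => hj (by rw [(hb' j).1 h3, sub_self])
      have h4 : b j ≠ 0 := by
        intro h4
        exact hj (by rw [h4, (hb' j).2 h3, sub_self])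
      have sy : ∀ {x y : ι}, Proportional k (μ x) (μ y) → Proportional k (μ y) (μ x) :=
        fun {x y} hxy => prop_symm (hμ y) hxy
      rcases hbj j₁ h2 with h5 | h5 <;> rcases hbj j₀ hj₀ with h6 | h6 <;>
        rcases hbj j h4 with h7 | h7
      · exact absurd (prop_trans h1 (prop_trans (sy h5) h6)) hij₀
      · exact absurd (prop_trans h1 (prop_trans (sy h5) h6)) hij₀
      · exact absurd (prop_trans h1 (prop_trans (sy h5) h7)) h3
      · exact prop_trans (sy h6) h7
      · exact prop_trans (sy h6) h7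
      · exact absurd (prop_trans h1 (prop_trans (sy h5) h7)) h3
      · exact absurd (prop_trans h1 (prop_trans (sy h5) h6)) hij₀
      · exact absurd (prop_trans h1 (prop_trans (sy h5) h6)) hij₀
    by_cases hne : ∀ j, b' j = 0
    · exact Finset.sum_eq_zero fun j _ => by rw [hne j, map_zero, zero_mul]
    · obtain ⟨T', hT'⟩ := sum_class (k := k) (μ := μ) (fun j => b j - b' j) (μ j₀)
        fun j hj => hrest j hj hne
      have h1 : algebraMap k K T * μ i + algebraMap k K T' * μ j₀ = 0 := by
        rw [← hT, ← hT', ← Finset.sum_add_distrib, ← hsum]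
        refine Finset.sum_congr rfl fun j _ => ?_
        rw [map_sub]
        ring
      by_cases hT0 : T' = 0
      · rw [hT0, map_zero, zero_mul, add_zero] at h1
        rw [hT, h1]
      · exfalso
        refine hij₀ ⟨-(T'⁻¹ * T), ?_⟩
        have h2 : algebraMap k K T' ≠ 0 := by rwa [Ne, map_eq_zero]
        apply mul_left_cancel₀ h2
        have h3 : algebraMap k K T' * algebraMap k K T'⁻¹ = 1 := by
          rw [← map_mul, mul_inv_cancel₀ hT0, map_one]
        rw [map_neg, map_mul]
        linear_combination h1 + algebraMap k K T * μ i * h3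

omit [Fintype ι] in
/-- **One class.** -/
theorem one_class {μ : ι → K} (hμ : ∀ i, μ i ≠ 0) (h : ∀ i j, Proportional k (μ i) (μ j))
    (z : ι → K) : SubspaceProperty k μ z := by
  classical
  rintro V ⟨s, rfl⟩ hz
  refine ⟨_, le_rfl, ?_, ⟨s, rfl⟩, hz⟩
  rcases isEmpty_or_nonempty ι with hι | ⟨⟨i₁⟩⟩
  · refine ⟨s, ?_⟩
    congr 1
    exact Set.image_congr fun w _ => Subsingleton.elim _ _
  · choose t ht using fun j => h i₁ j
    have ht0 : ∀ j, algebraMap k K (t j) ≠ 0 := by
      intro j h0
      apply hμ j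
      rw [ht j, h0, zero_mul]
    have key : ∀ w : ι → k, (fun j => algebraMap k K ((t j)⁻¹ * w j)) =
        μ i₁ • fun j => (μ j)⁻¹ * algebraMap k K (w j) := by
      intro w
      funext j
      rw [Pi.smul_apply, smul_eq_mul, map_mul, map_inv₀]
      rw [ht j, mul_inv]
      have h1 : μ i₁ * (μ i₁)⁻¹ = 1 := mul_inv_cancel₀ (hμ i₁)
      linear_combination (-(algebraMap k K (t j))⁻¹ * algebraMap k K (w j)) * h1
    refine ⟨(fun w j => (t j)⁻¹ * w j) '' s, le_antisymm ?_ ?_⟩
    · rw [Submodule.span_le]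
      rintro _ ⟨w, hw, rfl⟩
      have h1 : (fun j => (μ j)⁻¹ * algebraMap k K (w j)) =
          (μ i₁)⁻¹ • fun j => algebraMap k K ((t j)⁻¹ * w j) := by
        rw [key, smul_smul, inv_mul_cancel₀ (hμ i₁), one_smul]
      simp only [SetLike.mem_coe]
      rw [h1]
      exact Submodule.smul_mem _ _ (Submodule.subset_span ⟨_, ⟨w, hw, rfl⟩, rfl⟩)
    · rw [Submodule.span_le]
      rintro _ ⟨_, ⟨w, hw, rfl⟩, rfl⟩
      simp only [SetLike.mem_coe]
      rw [key]
      exact Submodule.smul_mem _ _ (Submodule.subset_span ⟨w, hw, rfl⟩)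

end Pool.Agent.R370.HA
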