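import Pool.Agent.R370.HA.B

/-!
# The converse for points with coordinates in `k`
-/

set_option autoImplicit false

namespace Pool.Agent.R370.HA

variable {k K : Type} [Field k] [Field K] [Algebra k K] {ι : Type} [Fintype ι]

omit [Fintype ι] in
theorem alg_mem_span (s : Set (ι → k)) {w : ι → k} (hw : w ∈ Submodule.span k s) :
    (fun i => algebraMap k K (w i)) ∈
      Submodule.span K ((fun (w : ι → k) i => algebraMap k K (w i)) '' s) := by
  induction hw using Submodule.span_induction with
  | mem w hw => exact Submodule.subset_span ⟨w, hw, rfl⟩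
  | zero =>
    have : (fun i => algebraMap k K ((0 : ι → k) i)) = 0 := by
      funext i
      simp
    rw [this]
    exact Submodule.zero_mem _
  | add x y _ _ hx hy =>
    have : (fun i => algebraMap k K ((x + y) i)) =
        (fun i => algebraMap k K (x i)) + fun i => algebraMap k K (y i) := by
      funext i
      simp
    rw [this]
    exact Submodule.add_mem _ hx hy
  | smul c x _ hx =>
    have : (fun i => algebraMap k K ((c • x) i)) =
        algebraMap k K c • fun i => algebraMap k K (x i) := by
      funext i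
      simp
    rw [this]
    exact Submodule.smul_mem _ _ hx

omit [Fintype ι] in
theorem functional_mem {s : Set (ι → k)} {x : ι → K}
    (hx : x ∈ Submodule.span K ((fun (w : ι → k) i => algebraMap k K (w i)) '' s)) :
    ∀ φ : K →ₗ[k] k, (fun i => φ (x i)) ∈ Submodule.span k s := by
  induction hx using Submodule.span_induction with
  | mem x hx =>
    obtain ⟨w, hw, rfl⟩ := hx
    intro φ
    have : (fun i => φ (algebraMap k K (w i))) = φ 1 • w := by
      funext i
      rw [Algebra.algebraMap_eq_smul_one, map_smul, Pi.smul_apply, smul_eq_mul, smul_eq_mul,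
        mul_comm]
    rw [this]
    exact Submodule.smul_mem _ _ (Submodule.subset_span hw)
  | zero =>
    intro φ
    have : (fun i => φ ((0 : ι → K) i)) = 0 := by
      funext i
      simp
    rw [this]
    exact Submodule.zero_mem _
  | add x y _ _ hx hy =>
    intro φ
    have : (fun i => φ ((x + y) i)) = (fun i => φ (x i)) + fun i => φ (y i) := by
      funext i
      simp
    rw [this]
    exact Submodule.add_mem _ (hx φ) (hy φ)
  | smul c x _ hx =>
    intro φ
    exact hx (φ.comp (LinearMap.mulLeft k c))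

omit [Fintype ι] in
/-- the multipliers of the `k`-points of a subspace which is rational for both structures -/
theorem multiplier {μ : ι → K} (hμ : ∀ i, μ i ≠ 0) {V : Submodule K (ι → K)}
    (h1 : GeomRational k V) (h2 : ArithRational k μ V) {u : ι → k}
    (hu : (fun i => algebraMap k K (u i)) ∈ V) (φ φ' : K →ₗ[k] k) :
    (fun i => algebraMap k K (φ' (μ i)⁻¹ * φ (μ i) * u i)) ∈ V := by
  obtain ⟨s₁, hs₁⟩ := h1
  obtain ⟨s₂, hs₂⟩ := h2
  have h3 := hu
  rw [hs₂, mem_arith_iff hμ] at h3
  have h4 := functional_mem h3 φ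
  have h5 : (fun i => φ (μ i * algebraMap k K (u i))) = fun i => φ (μ i) * u i := by
    funext i
    rw [mul_comm (μ i), ← Algebra.smul_def, map_smul, smul_eq_mul, mul_comm]
  rw [h5] at h4
  have h6 : (fun i => (μ i)⁻¹ * algebraMap k K (φ (μ i) * u i)) ∈ V := by
    rw [hs₂, mem_arith_iff hμ]
    have h7 : (fun i => μ i * ((μ i)⁻¹ * algebraMap k K (φ (μ i) * u i))) =
        fun i => algebraMap k K (φ (μ i) * u i) := by
      funext i
      rw [mul_inv_cancel_left₀ (hμ i)]
    rw [h7]
    exact alg_mem_span s₂ h4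
  rw [hs₁] at h6
  have h8 := functional_mem h6 φ'
  have h9 : (fun i => φ' ((μ i)⁻¹ * algebraMap k K (φ (μ i) * u i))) =
      fun i => φ' (μ i)⁻¹ * φ (μ i) * u i := by
    funext i
    rw [mul_comm (μ i)⁻¹, ← Algebra.smul_def, map_smul, smul_eq_mul]
    ring
  rw [h9] at h8
  rw [hs₁]
  exact alg_mem_span s₁ h8

/-- the parts of a point over `k` of a subspace which is rational for both structures -/
theorem part_mem {μ : ι → K} (hμ : ∀ i, μ i ≠ 0) {V : Submodule K (ι → K)}
    (h1 : GeomRational k V) (h2 : ArithRational k μ V) {w : ι → k}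
    (hw : (fun i => algebraMap k K (w i)) ∈ V) (i₀ : ι) {v : ι → k}
    (hv : ∀ j, (Proportional k (μ i₀) (μ j) → v j = w j) ∧
      (¬ Proportional k (μ i₀) (μ j) → v j = 0)) :
    (fun i => algebraMap k K (v i)) ∈ V := by
  classical
  -- a function constant on classes which separates `i₀` from `j`
  have hsep : ∀ j, ∃ g : ι → k, (∀ u : ι → k, (fun i => algebraMap k K (u i)) ∈ V →
      (fun i => algebraMap k K (g i * u i)) ∈ V) ∧
      (∀ i, Proportional k (μ i₀) (μ i) → g i = 1) ∧
      (¬ Proportional k (μ i₀) (μ j) → g j = 0) := by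
    intro j
    by_cases hj : Proportional k (μ i₀) (μ j)
    · exact ⟨fun _ => 1, fun u hu => by simpa using hu, fun _ _ => rfl, fun h => absurd hj h⟩
    · have h3 : ∃ φ φ' : K →ₗ[k] k,
          φ' (μ i₀)⁻¹ * φ (μ i₀) ≠ φ' (μ j)⁻¹ * φ (μ j) := by
        by_contra hcon
        push Not at hcon
        apply hj
        obtain ⟨φ', hφ'⟩ := Module.Projective.exists_dual_ne_zero k (inv_ne_zero (hμ j))
        have h4 : μ j = algebraMap k K ((φ' (μ j)⁻¹)⁻¹ * φ' (μ i₀)⁻¹) * μ i₀ := by
          by_contra hne
          have h5 : μ j - algebraMap k K ((φ' (μ j)⁻¹)⁻¹ * φ' (μ i₀)⁻¹) * μ i₀ ≠ 0 :=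
            sub_ne_zero.2 hne
          obtain ⟨φ, hφ⟩ := Module.Projective.exists_dual_ne_zero k h5
          apply hφ
          rw [map_sub, ← Algebra.smul_def, map_smul, smul_eq_mul, mul_assoc, hcon φ φ',
            ← mul_assoc, inv_mul_cancel₀ hφ', one_mul, sub_self]
        exact ⟨_, h4⟩
      obtain ⟨φ, φ', hφ⟩ := h3
      set c₀ := φ' (μ i₀)⁻¹ * φ (μ i₀) with hc₀
      set c₁ := φ' (μ j)⁻¹ * φ (μ j) with hc₁
      have h4 : c₀ - c₁ ≠ 0 := sub_ne_zero.2 hφ
      refine ⟨fun i => (c₀ - c₁)⁻¹ * (φ' (μ i)⁻¹ * φ (μ i) - c₁), fun u hu => ?_, fun i hi => ?_,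
        fun _ => ?_⟩
      · have h5 := multiplier hμ h1 h2 hu φ φ'
        have h6 : (fun i => algebraMap k K ((c₀ - c₁)⁻¹ * (φ' (μ i)⁻¹ * φ (μ i) - c₁) * u i)) =
            algebraMap k K (c₀ - c₁)⁻¹ • ((fun i => algebraMap k K (φ' (μ i)⁻¹ * φ (μ i) * u i)) -
              algebraMap k K c₁ • fun i => algebraMap k K (u i)) := by
          funext i
          simp only [Pi.smul_apply, Pi.sub_apply, smul_eq_mul, map_mul, map_sub]
          ring
        rw [h6]
        exact Submodule.smul_mem _ _ (Submodule.sub_mem _ h5 (Submodule.smul_mem _ _ hu))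
      · obtain ⟨t, ht⟩ := hi
        have ht0 : t ≠ 0 := by
          rintro rfl
          exact hμ i (by rw [ht, map_zero, zero_mul])
        have h5 : φ' (μ i)⁻¹ = t⁻¹ * φ' (μ i₀)⁻¹ := by
          rw [ht, mul_inv, ← map_inv₀, ← Algebra.smul_def, map_smul, smul_eq_mul]
        have h6 : φ (μ i) = t * φ (μ i₀) := by
          rw [ht, ← Algebra.smul_def, map_smul, smul_eq_mul]
        have h7 : φ' (μ i)⁻¹ * φ (μ i) = c₀ := by
          rw [h5, h6, hc₀]
          field_simp
        change (c₀ - c₁)⁻¹ * (φ' (μ i)⁻¹ * φ (μ i) - c₁) = 1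
        rw [h7, inv_mul_cancel₀ h4]
      · change (c₀ - c₁)⁻¹ * (c₁ - c₁) = 0
        rw [sub_self, mul_zero]
  choose g hg1 hg2 hg3 using hsep
  have h3 : ∀ J : Finset ι, (fun i => algebraMap k K ((∏ j ∈ J, g j i) * w i)) ∈ V := by
    intro J
    induction J using Finset.induction_on with
    | empty => simpa using hw
    | insert a J ha ih =>
      have h4 := hg1 a _ ih
      have h5 : (fun i => algebraMap k K ((∏ j ∈ insert a J, g j i) * w i)) =
          fun i => algebraMap k K (g a i * ((∏ j ∈ J, g j i) * w i)) := by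
        funext i
        rw [Finset.prod_insert ha, mul_assoc]
      rw [h5]
      exact h4
  have h4 : (fun i => algebraMap k K (v i)) =
      fun i => algebraMap k K ((∏ j ∈ Finset.univ, g j i) * w i) := by
    funext i
    by_cases hi : Proportional k (μ i₀) (μ i)
    · rw [(hv i).1 hi, Finset.prod_eq_one fun j _ => hg2 j i hi, one_mul]
    · rw [(hv i).2 hi, Finset.prod_eq_zero (f := fun j => g j i) (Finset.mem_univ i) (hg3 i hi),
        zero_mul]
  rw [h4]
  exact h3 _

/-- **The converse.** -/
theorem split_of_property {μ : ι → K} (hμ : ∀ i, μ i ≠ 0) {w : ι → k}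
    (h : SubspaceProperty k μ (fun i => algebraMap k K (w i))) : RelationsSplit k μ w := by
  classical
  -- the linear forms which vanish at `w`
  let R : Submodule k (ι → k) :=
    { carrier := {a | ∑ i, algebraMap k K (a i) * (μ i * algebraMap k K (w i)) = 0}
      zero_mem' := by simp
      add_mem' := by
        intro a b ha hb
        have h1 : ∑ i, algebraMap k K ((a + b) i) * (μ i * algebraMap k K (w i)) =
            ∑ i, algebraMap k K (a i) * (μ i * algebraMap k K (w i)) +
            ∑ i, algebraMap k K (b i) * (μ i * algebraMap k K (w i)) := by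
          rw [← Finset.sum_add_distrib]
          exact Finset.sum_congr rfl fun i _ => by rw [Pi.add_apply, map_add, add_mul]
        change ∑ i, algebraMap k K ((a + b) i) * (μ i * algebraMap k K (w i)) = 0
        rw [h1, ha, hb, add_zero]
      smul_mem' := by
        intro c a ha
        have h1 : ∑ i, algebraMap k K ((c • a) i) * (μ i * algebraMap k K (w i)) =
            algebraMap k K c * ∑ i, algebraMap k K (a i) * (μ i * algebraMap k K (w i)) := by
          rw [Finset.mul_sum]
          exact Finset.sum_congr rfl fun i _ => by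
            rw [Pi.smul_apply, smul_eq_mul, map_mul, mul_assoc]
        change ∑ i, algebraMap k K ((c • a) i) * (μ i * algebraMap k K (w i)) = 0
        rw [h1, ha, mul_zero] }
  let s : Set (ι → k) := {y | ∀ a ∈ R, ∑ i, a i * y i = 0}
  let V : Submodule K (ι → K) :=
    Submodule.span K ((fun (w : ι → k) i => (μ i)⁻¹ * algebraMap k K (w i)) '' s)
  have hR : ∀ a : ι → k, (∀ y ∈ s, ∑ i, a i * y i = 0) → a ∈ R := by
    intro a ha
    by_contra hcon
    obtain ⟨f, hf, hfR⟩ := Submodule.exists_dual_map_eq_bot_of_notMem hcon inferInstance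
    have hf2 : ∀ y : ι → k, f y = ∑ i, y i * f (Pi.single i 1) := by
      intro y
      rw [LinearMap.pi_apply_eq_sum_univ f y]
      refine Finset.sum_congr rfl fun i _ => ?_
      have h0 : (fun j => if i = j then (1 : k) else 0) = Pi.single i 1 := by
        funext j
        simp [Pi.single_apply, eq_comm]
      rw [smul_eq_mul, h0]
    apply hf
    rw [hf2]
    refine ha _ fun b hb => ?_
    rw [← hf2]
    have h4 : f b ∈ R.map f := ⟨b, hb, rfl⟩
    rw [hfR] at h4
    exact (Submodule.mem_bot k).1 h4
  have hz : (fun i => algebraMap k K (w i)) ∈ V :=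
    (mem_arith_iff hμ s _).2 (mem_span_of_dual s _ fun a ha => hR a ha)
  obtain ⟨V', hV', hg, har, hzV'⟩ := h V ⟨s, rfl⟩ hz
  intro b hb hsum i₀ b' hb'
  have h1 := part_mem hμ hg har hzV' i₀
    (v := fun j => if Proportional k (μ i₀) (μ j) then w j else 0)
    fun j => ⟨fun hj => if_pos hj, fun hj => if_neg hj⟩
  have h2 := (mem_arith_iff hμ s _).1 (hV' h1)
  have h3 : (fun j => b j * (w j)⁻¹) ∈ R := by
    change ∑ j, algebraMap k K (b j * (w j)⁻¹) * (μ j * algebraMap k K (w j)) = 0
    rw [← hsum]
    refine Finset.sum_congr rfl fun j _ => ?_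
    by_cases hj : w j = 0
    · rw [hb j hj, zero_mul, map_zero, zero_mul, zero_mul]
    · have h4 : algebraMap k K (b j) = algebraMap k K (b j * (w j)⁻¹) * algebraMap k K (w j) := by
        rw [← map_mul, mul_assoc, inv_mul_cancel₀ hj, mul_one]
      rw [h4]
      ring
  have h4 := relation_of_mem h2 (a := fun j => b j * (w j)⁻¹) fun y hy => hy _ h3
  rw [← h4]
  refine Finset.sum_congr rfl fun j _ => ?_
  by_cases hj : Proportional k (μ i₀) (μ j)
  · rw [(hb' j).1 hj]
    simp only [if_pos hj]
    by_cases hwj : w j = 0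
    · rw [hb j hwj, zero_mul, map_zero, zero_mul, zero_mul]
    · have h5 : algebraMap k K (b j) = algebraMap k K (b j * (w j)⁻¹) * algebraMap k K (w j) := by
        rw [← map_mul, mul_assoc, inv_mul_cancel₀ hwj, mul_one]
      rw [h5]
      ring
  · rw [(hb' j).2 hj]
    simp only [if_neg hj]
    rw [map_zero, zero_mul, mul_zero, mul_zero]

end Pool.Agent.R370.HA
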