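import Pool.Agent.R370.HA.C

/-!
# Arbitrary points
-/

set_option autoImplicit false

namespace Pool.Agent.R370.HA

section Definitions

/-- Every linear relation over `k` between the numbers `μ j * z j` (the coordinates of `z` for the
arithmetic structure) is a sum of relations in which the `μ j` are proportional: for every `i` its
part with the `j` such that `μ j` is proportional to `μ i` is a relation. -/
def CoordinatesSplit (k : Type) {K : Type} [Field k] [Field K] [Algebra k K] {ι : Type}
    [Fintype ι] (μ : ι → K) (z : ι → K) : Prop :=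
  ∀ a : ι → k, ∑ j, algebraMap k K (a j) * (μ j * z j) = 0 →
    ∀ i, ∀ a' : ι → k, (∀ j, (Proportional k (μ i) (μ j) → a' j = a j) ∧
      (¬ Proportional k (μ i) (μ j) → a' j = 0)) →
      ∑ j, algebraMap k K (a' j) * (μ j * z j) = 0

end Definitions

variable {k K : Type} [Field k] [Field K] [Algebra k K] {ι : Type} [Fintype ι]

/-- the parts of a point of a subspace which is rational for both structures -/
theorem part_mem' {μ : ι → K} (hμ : ∀ i, μ i ≠ 0) {V : Submodule K (ι → K)}
    (h1 : GeomRational k V) (h2 : ArithRational k μ V) {x : ι → K} (hx : x ∈ V) (i₀ : ι)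
    {e : ι → k} (he : ∀ j, (Proportional k (μ i₀) (μ j) → e j = 1) ∧
      (¬ Proportional k (μ i₀) (μ j) → e j = 0)) :
    (fun i => algebraMap k K (e i) * x i) ∈ V := by
  have h3 := h1
  obtain ⟨s, hs⟩ := h3
  rw [hs] at hx
  induction hx using Submodule.span_induction with
  | mem x hx =>
    obtain ⟨w, hw, rfl⟩ := hx
    have h4 : (fun i => algebraMap k K (w i)) ∈ V := by
      rw [hs]
      exact Submodule.subset_span ⟨w, hw, rfl⟩
    have h5 := part_mem hμ h1 h2 h4 i₀ (v := fun j => e j * w j) fun j =>
      ⟨fun hj => by rw [(he j).1 hj, one_mul], fun hj => by rw [(he j).2 hj, zero_mul]⟩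
    simp only [map_mul] at h5
    exact h5
  | zero =>
    have : (fun i => algebraMap k K (e i) * (0 : ι → K) i) = 0 := by
      funext i
      simp
    rw [this]
    exact Submodule.zero_mem _
  | add x y _ _ hx hy =>
    have : (fun i => algebraMap k K (e i) * (x + y) i) =
        (fun i => algebraMap k K (e i) * x i) + fun i => algebraMap k K (e i) * y i := by
      funext i
      simp [mul_add]
    rw [this]
    exact Submodule.add_mem _ hx hy
  | smul c x _ hx =>
    have : (fun i => algebraMap k K (e i) * (c • x) i) =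
        c • fun i => algebraMap k K (e i) * x i := by
      funext i
      simp only [Pi.smul_apply, smul_eq_mul]
      ring
    rw [this]
    exact Submodule.smul_mem _ _ hx

/-- the smallest subspace which is rational for the arithmetic structure and contains `z` -/
theorem exists_arith (μ : ι → K) (hμ : ∀ i, μ i ≠ 0) (z : ι → K) :
    ∃ V : Submodule K (ι → K), ArithRational k μ V ∧ z ∈ V ∧
      ∀ x ∈ V, ∀ a : ι → k, ∑ i, algebraMap k K (a i) * (μ i * z i) = 0 →
        ∑ i, algebraMap k K (a i) * (μ i * x i) = 0 := by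
  classical
  let R : Submodule k (ι → k) :=
    { carrier := {a | ∑ i, algebraMap k K (a i) * (μ i * z i) = 0}
      zero_mem' := by simp
      add_mem' := by
        intro a b ha hb
        have h1 : ∑ i, algebraMap k K ((a + b) i) * (μ i * z i) =
            ∑ i, algebraMap k K (a i) * (μ i * z i) +
            ∑ i, algebraMap k K (b i) * (μ i * z i) := by
          rw [← Finset.sum_add_distrib]
          exact Finset.sum_congr rfl fun i _ => by rw [Pi.add_apply, map_add, add_mul]
        change ∑ i, algebraMap k K ((a + b) i) * (μ i * z i) = 0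
        rw [h1, ha, hb, add_zero]
      smul_mem' := by
        intro c a ha
        have h1 : ∑ i, algebraMap k K ((c • a) i) * (μ i * z i) =
            algebraMap k K c * ∑ i, algebraMap k K (a i) * (μ i * z i) := by
          rw [Finset.mul_sum]
          exact Finset.sum_congr rfl fun i _ => by
            rw [Pi.smul_apply, smul_eq_mul, map_mul, mul_assoc]
        change ∑ i, algebraMap k K ((c • a) i) * (μ i * z i) = 0
        rw [h1, ha, mul_zero] }
  let s : Set (ι → k) := {y | ∀ a ∈ R, ∑ i, a i * y i = 0}
  have hR : ∀ a : ι → k, (∀ y ∈ s, ∑ i, a i * y i = 0) → a ∈ R := by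
    intro a ha
    by_contra hcon
    obtain ⟨f, hf, hfR⟩ := Submodule.exists_dual_map_eq_bot_of_notMem hcon inferInstance
    have hf2 : ∀ y : ι → k, f y = ∑ i, y i * f (Pi.single i 1) := by
      intro y
      rw [LinearMap.pi_apply_eq_sum_univ f y]
      refine Finset.sum_congr rfl fun i _ => ?_
      have h0 : (fun j => if i = j then (1 : k) else 0) = Pi.single i 1 := by
        funext j
        simp [Pi.single_apply, eq_comm]
      rw [smul_eq_mul, h0]
    apply hf
    rw [hf2]
    refine ha _ fun b hb => ?_
    rw [← hf2]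
    have h4 : f b ∈ R.map f := ⟨b, hb, rfl⟩
    rw [hfR] at h4
    exact (Submodule.mem_bot k).1 h4
  refine ⟨Submodule.span K ((fun (w : ι → k) i => (μ i)⁻¹ * algebraMap k K (w i)) '' s),
    ⟨s, rfl⟩, (mem_arith_iff hμ s _).2 (mem_span_of_dual s _ fun a ha => hR a ha), ?_⟩
  intro x hx a ha
  exact relation_of_mem ((mem_arith_iff hμ s _).1 hx) fun y hy => hy a ha

/-- **The necessary condition.** -/
theorem coordinates_of_property {μ : ι → K} (hμ : ∀ i, μ i ≠ 0) {z : ι → K}
    (h : SubspaceProperty k μ z) : CoordinatesSplit k μ z := by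
  classical
  obtain ⟨V, hV, hz, hrel⟩ := exists_arith (k := k) μ hμ z
  obtain ⟨V', hV', hg, har, hzV'⟩ := h V hV hz
  intro a ha i₀ a' ha'
  have h1 := part_mem' hμ hg har hzV' i₀
    (e := fun j => if Proportional k (μ i₀) (μ j) then 1 else 0)
    fun j => ⟨fun hj => if_pos hj, fun hj => if_neg hj⟩
  rw [← hrel _ (hV' h1) a ha]
  refine Finset.sum_congr rfl fun j _ => ?_
  by_cases hj : Proportional k (μ i₀) (μ j)
  · rw [(ha' j).1 hj]
    simp only [if_pos hj, map_one, one_mul]
  · rw [(ha' j).2 hj]
    simp only [if_neg hj, map_zero, zero_mul, mul_zero]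

/-- **The sufficient condition.** -/
theorem property_of_coordinates {μ : ι → K} (hμ : ∀ i, μ i ≠ 0) {z : ι → K}
    (h : CoordinatesSplit k μ z) : SubspaceProperty k μ z := by
  classical
  rintro V ⟨s, hs⟩ hz
  let U : Submodule k (ι → k) := Submodule.span k s
  -- the vectors of `U` which are supported in the class of `i`
  let Q : ι → Submodule k (ι → k) := fun i =>
    { carrier := {w | ∀ j, ¬ Proportional k (μ i) (μ j) → w j = 0}
      zero_mem' := fun _ _ => rfl
      add_mem' := fun {x y} hx hy j hj => by
        change x j + y j = 0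
        rw [hx j hj, hy j hj, add_zero]
      smul_mem' := fun c x hx j hj => by
        change c * x j = 0
        rw [hx j hj, mul_zero] }
  let s' : Set (ι → k) := {w | ∃ i, w ∈ U ⊓ Q i}
  have hUV : ∀ w ∈ U, (fun i => (μ i)⁻¹ * algebraMap k K (w i)) ∈ V := by
    intro w hw
    rw [hs, mem_arith_iff hμ]
    have h7 : (fun i => μ i * ((μ i)⁻¹ * algebraMap k K (w i))) =
        fun i => algebraMap k K (w i) := by
      funext i
      rw [mul_inv_cancel_left₀ (hμ i)]
    rw [h7]
    exact alg_mem_span s hw
  refine ⟨Submodule.span K ((fun w i => (μ i)⁻¹ * algebraMap k K (w i)) '' s'), ?_, ?_,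
    ⟨s', rfl⟩, ?_⟩
  · rw [Submodule.span_le]
    rintro _ ⟨w, ⟨i, hw⟩, rfl⟩
    exact hUV w hw.1
  · have ht : ∀ i j, ∃ t : k, Proportional k (μ i) (μ j) → t ≠ 0 ∧ μ j = algebraMap k K t * μ i := by
      intro i j
      by_cases hij : Proportional k (μ i) (μ j)
      · obtain ⟨t, ht⟩ := hij
        refine ⟨t, fun _ => ⟨?_, ht⟩⟩
        rintro rfl
        exact hμ j (by rw [ht, map_zero, zero_mul])
      · exact ⟨0, fun h => absurd h hij⟩
    choose t ht using ht
    have key : ∀ i, ∀ w ∈ Q i, (fun j => algebraMap k K ((t i j)⁻¹ * w j)) =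
        μ i • fun j => (μ j)⁻¹ * algebraMap k K (w j) := by
      intro i w hw
      funext j
      rw [Pi.smul_apply, smul_eq_mul, map_mul, map_inv₀]
      by_cases hij : Proportional k (μ i) (μ j)
      · obtain ⟨h1, h2⟩ := ht i j hij
        rw [h2, mul_inv]
        have h3 : μ i * (μ i)⁻¹ = 1 := mul_inv_cancel₀ (hμ i)
        linear_combination (-(algebraMap k K (t i j))⁻¹ * algebraMap k K (w j)) * h3
      · rw [hw j hij, map_zero, mul_zero, mul_zero, mul_zero]
    refine ⟨{v | ∃ i, ∃ w ∈ U ⊓ Q i, v = fun j => (t i j)⁻¹ * w j}, le_antisymm ?_ ?_⟩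
    · rw [Submodule.span_le]
      rintro _ ⟨w, ⟨i, hw⟩, rfl⟩
      have h1 : (fun j => (μ j)⁻¹ * algebraMap k K (w j)) =
          (μ i)⁻¹ • fun j => algebraMap k K ((t i j)⁻¹ * w j) := by
        rw [key i w hw.2, smul_smul, inv_mul_cancel₀ (hμ i), one_smul]
      simp only [SetLike.mem_coe]
      rw [h1]
      exact Submodule.smul_mem _ _ (Submodule.subset_span ⟨_, ⟨i, w, hw, rfl⟩, rfl⟩)
    · rw [Submodule.span_le]
      rintro _ ⟨_, ⟨i, w, hw, rfl⟩, rfl⟩
      simp only [SetLike.mem_coe]
      rw [key i w hw.2]
      exact Submodule.smul_mem _ _ (Submodule.subset_span ⟨w, ⟨i, hw⟩, rfl⟩)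
  · refine (mem_arith_iff hμ s' _).2 (mem_span_of_dual s' _ fun a ha => ?_)
    -- the parts of the relation are relations
    have hpart : ∀ i, ∑ j, algebraMap k K (if Proportional k (μ i) (μ j) then a j else 0) *
        (μ j * z j) = 0 := by
      intro i
      let f : Module.Dual k (ι → k) := ∑ j, a j • LinearMap.proj j
      have hf : ∀ w, f w = ∑ j, a j * w j := by
        intro w
        simp [f]
      have h1 : f ∈ (U ⊓ Q i).dualAnnihilator := by
        rw [Submodule.mem_dualAnnihilator]
        intro w hw
        rw [hf]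
        exact ha w ⟨i, hw⟩
      rw [Subspace.dualAnnihilator_inf_eq, Submodule.mem_sup] at h1
      obtain ⟨g, hg, g', hg', hgg⟩ := h1
      rw [Submodule.mem_dualAnnihilator] at hg hg'
      have hg2 : ∀ w, g w = ∑ j, g (Pi.single j 1) * w j := by
        intro w
        rw [LinearMap.pi_apply_eq_sum_univ g w]
        refine Finset.sum_congr rfl fun j _ => ?_
        have h0 : (fun l => if j = l then (1 : k) else 0) = Pi.single j 1 := by
          funext l
          simp [Pi.single_apply, eq_comm]
        rw [smul_eq_mul, h0, mul_comm]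
      have h2 : ∑ j, algebraMap k K (g (Pi.single j 1)) * (μ j * z j) = 0 := by
        rw [hs] at hz
        refine relation_of_mem ((mem_arith_iff hμ s _).1 hz) fun w hw => ?_
        rw [← hg2]
        exact hg w (Submodule.subset_span hw)
      refine h _ h2 i _ fun j => ⟨fun hj => ?_, fun hj => if_neg hj⟩
      rw [if_pos hj]
      have h3 : (Pi.single j 1 : ι → k) ∈ Q i := by
        intro l hl
        have hlj : l ≠ j := by
          rintro rfl
          exact hl hj
        rw [Pi.single_apply, if_neg hlj]
      have h4 := hg' _ h3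
      have h5 : f (Pi.single j 1) = a j := by
        rw [hf]
        simp [Pi.single_apply]
      rw [← h5, ← hgg, LinearMap.add_apply, h4, add_zero]
    -- the sum over the classes
    let S : Setoid ι := ⟨fun i j => Proportional k (μ i) (μ j), fun i => prop_refl _,
      fun {i j} h => prop_symm (hμ j) h, fun h1 h2 => prop_trans h1 h2⟩
    let r : ι → ι := fun j => (Quotient.mk S j).out
    have hr : ∀ j, Proportional k (μ (r j)) (μ j) := fun j => Quotient.mk_out (s := S) j
    have hr2 : ∀ i j, Proportional k (μ i) (μ j) → r i = r j := by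
      intro i j hij
      have h1 : Quotient.mk S i = Quotient.mk S j := Quotient.sound hij
      change (Quotient.mk S i).out = (Quotient.mk S j).out
      rw [h1]
    rw [← Finset.sum_fiberwise Finset.univ r fun j => algebraMap k K (a j) * (μ j * z j)]
    refine Finset.sum_eq_zero fun c _ => ?_
    by_cases hc : ∃ j₀, r j₀ = c
    · obtain ⟨j₀, rfl⟩ := hc
      rw [← hpart (r j₀), Finset.sum_filter]
      refine Finset.sum_congr rfl fun j _ => ?_
      have h3 : r j = r j₀ ↔ Proportional k (μ (r j₀)) (μ j) := by
        constructor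
        · intro h3
          rw [← h3]
          exact hr j
        · intro h3
          exact (hr2 _ _ (prop_trans (prop_symm (hμ j₀) (hr j₀)) h3)).symm
      by_cases h4 : Proportional k (μ (r j₀)) (μ j)
      · rw [if_pos (h3.2 h4), if_pos h4]
      · rw [if_neg (fun h5 => h4 (h3.1 h5)), if_neg h4, map_zero, zero_mul]
    · refine Finset.sum_eq_zero fun j hj => ?_
      exact absurd ⟨j, (Finset.mem_filter.1 hj).2⟩ hc

end Pool.Agent.R370.HA
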